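import Mathlib
import Pool.Agent.helper18.Rot.Defs

/-!
# The principal cube root and the numbering of the sheets (mod:cb)
-/

open Topology Filter Set
open scoped unitInterval

namespace Pool.Agent.helper31.Rot

open Pool.Agent.helper18.Rot Par

theorem cb_pow (z : ℂ) : cb z ^ 3 = z := by
  unfold cb
  rw [← Complex.cpow_nat_mul]
  norm_num

theorem om_pow : om ^ 3 = 1 := by
  unfold om
  rw [← Complex.exp_nat_mul]
  have : ((3 : ℕ) : ℂ) * (2 * Real.pi * Complex.I / 3) = 2 * Real.pi * Complex.I := by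
    push_cast
    ring
  rw [this, Complex.exp_two_pi_mul_I]

theorem om_primitive : IsPrimitiveRoot om 3 := by
  have := Complex.isPrimitiveRoot_exp 3 (by norm_num)
  unfold om
  simpa using this

theorem om_ne_one : om ≠ 1 := om_primitive.ne_one (by norm_num)

theorem om_ne_zero : om ≠ 0 := om_primitive.ne_zero (by norm_num)

theorem om_sq_ne_one : om ^ 2 ≠ 1 := om_primitive.pow_ne_one_of_pos_of_lt (by norm_num) (by norm_num)

theorem om_sq_ne_om : om ^ 2 ≠ om := by
  intro h
  have h1 : om * (om - 1) = 0 := by ring_nf; rw [h]; ring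
  rcases mul_eq_zero.1 h1 with h2 | h2
  · exact om_ne_zero h2
  · exact om_ne_one (sub_eq_zero.1 h2)

theorem norm_om : ‖om‖ = 1 := by
  have h := congrArg norm om_pow
  rw [norm_pow, norm_one] at h
  exact (pow_eq_one_iff_of_nonneg (norm_nonneg _) (by norm_num)).1 h

theorem cb_zero : cb 0 = 0 := by
  unfold cb
  exact Complex.zero_cpow (by norm_num)

theorem cb_ne_zero {z : ℂ} (hz : z ≠ 0) : cb z ≠ 0 := by
  intro h
  have := cb_pow z
  rw [h] at this
  exact hz (by rw [← this]; norm_num)

theorem norm_cb (z : ℂ) : ‖cb z‖ ^ 3 = ‖z‖ := by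
  rw [← norm_pow, cb_pow]

theorem cb_one : cb 1 = 1 := by
  unfold cb
  exact Complex.one_cpow _

theorem cb_eq_exp {z : ℂ} (hz : z ≠ 0) : cb z = Complex.exp (Complex.log z * (1 / 3)) := by
  unfold cb
  rw [Complex.cpow_def_of_ne_zero hz]

theorem cb_continuousAt {z : ℂ} (hz : z ∈ Complex.slitPlane) : ContinuousAt cb z := by
  unfold cb
  exact continuousAt_id.cpow continuousAt_const hz

theorem cb_differentiableAt {z : ℂ} (hz : z ∈ Complex.slitPlane) : DifferentiableAt ℂ cb z := by
  unfold cb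
  exact differentiableAt_id.cpow_const hz

/-- The cube roots of `g`. -/
theorem eq_of_cube {g w : ℂ} (hw : w ^ 3 = g) :
    w = cb g ∨ w = om * cb g ∨ w = om ^ 2 * cb g := by
  by_cases hg : g = 0
  · left
    rw [hg, cb_zero]
    rw [hg] at hw
    exact pow_eq_zero_iff (by norm_num) |>.1 hw
  · have hc := cb_ne_zero hg
    have h1 : (w / cb g) ^ 3 = 1 := by
      rw [div_pow, hw, cb_pow, div_self hg]
    obtain ⟨i, hi, h2⟩ := om_primitive.eq_pow_of_pow_eq_one h1
    have h3 : w = om ^ i * cb g := by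
      rw [h2, div_mul_cancel₀ _ hc]
    interval_cases i
    · left; simpa using h3
    · right; left; simpa using h3
    · right; right; exact h3

/-- if `w³ = g ≠ 0`, then `w = om ^ j * cb g` holds for exactly one `j`, namely `j = lb g w` -/
theorem eq_lb_iff {g w : ℂ} (hg : g ≠ 0) (hw : w ^ 3 = g) (j : ZMod 3) :
    lb g w = j ↔ w = om ^ j.val * cb g := by
  have hc := cb_ne_zero hg
  have e : ∀ a b : ℂ, a * cb g = b * cb g ↔ a = b := fun a b => mul_left_inj' hc
  have h01 : ¬ cb g = om * cb g := fun h => om_ne_one ((e 1 om).1 (by rw [one_mul]; exact h)).symm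
  have h02 : ¬ cb g = om ^ 2 * cb g := fun h =>
    om_sq_ne_one ((e 1 (om ^ 2)).1 (by rw [one_mul]; exact h)).symm
  have h12 : ¬ om * cb g = om ^ 2 * cb g := fun h => om_sq_ne_om ((e om (om ^ 2)).1 h).symm
  have v0 : (0 : ZMod 3).val = 0 := rfl
  have v1 : (1 : ZMod 3).val = 1 := rfl
  have v2 : (2 : ZMod 3).val = 2 := rfl
  have hj : j = 0 ∨ j = 1 ∨ j = 2 := by
    revert j
    decide
  unfold lb
  rcases eq_of_cube hw with h | h | h
  · rw [if_pos h]
    rcases hj with rfl | rfl | rfl
    · simp [h]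
    · rw [v1, pow_one, h]
      exact ⟨fun h => absurd h (by decide), fun h => absurd h h01⟩
    · rw [v2, h]
      exact ⟨fun h => absurd h (by decide), fun h => absurd h h02⟩
  · rw [if_neg (by rw [h]; exact fun h' => h01 h'.symm), if_pos h]
    rcases hj with rfl | rfl | rfl
    · rw [v0, pow_zero, one_mul, h]
      exact ⟨fun h => absurd h (by decide), fun h => absurd h.symm h01⟩
    · rw [v1, pow_one, h]
      exact ⟨fun _ => rfl, fun _ => rfl⟩
    · rw [v2, h]
      exact ⟨fun h => absurd h (by decide), fun h => absurd h h12⟩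
  · rw [if_neg (by rw [h]; exact fun h' => h02 h'.symm), if_neg (by rw [h]; exact fun h' => h12 h'.symm)]
    rcases hj with rfl | rfl | rfl
    · rw [v0, pow_zero, one_mul, h]
      exact ⟨fun h => absurd h (by decide), fun h => absurd h.symm h02⟩
    · rw [v1, pow_one, h]
      exact ⟨fun h => absurd h (by decide), fun h => absurd h.symm h12⟩
    · rw [v2, h]
      exact ⟨fun _ => rfl, fun _ => rfl⟩

/-- no wrapping: multiplication by a number close to `1` -/
theorem cb_mul_of_abs_arg {g z : ℂ} (hg : g ≠ 0) (hz : z ≠ 0)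
    (h : Complex.arg g + Complex.arg z ∈ Ioc (-Real.pi) Real.pi) : cb (g * z) = cb g * cb z := by
  rw [cb_eq_exp hg, cb_eq_exp hz, cb_eq_exp (mul_ne_zero hg hz), Complex.log_mul hg hz h,
    ← Complex.exp_add]
  congr 1
  ring

/-- wrapping once in the positive direction -/
theorem cb_mul_of_gt {g z : ℂ} (hg : g ≠ 0) (hz : z ≠ 0)
    (h : Real.pi < Complex.arg g + Complex.arg z) : cb g * cb z = om * cb (g * z) := by
  have hgz := mul_ne_zero hg hz
  have hpi := Real.pi_pos
  have h1 := Complex.arg_le_pi g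
  have h2 := Complex.arg_le_pi z
  have harg : Complex.arg (g * z) = Complex.arg g + Complex.arg z - 2 * Real.pi := by
    have h3 : (Complex.arg (g * z) : Real.Angle) = Complex.arg g + Complex.arg z :=
      Complex.arg_mul_coe_angle hg hz
    have h4 : ((Complex.arg (g * z) : ℝ) : Real.Angle) =
        ((Complex.arg g + Complex.arg z - 2 * Real.pi : ℝ) : Real.Angle) := by
      rw [h3]
      simp
    have h5 : (Complex.arg g + Complex.arg z - 2 * Real.pi) ∈ Ioc (-Real.pi) Real.pi :=
      ⟨by linarith, by linarith⟩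
    have h6 := congrArg Real.Angle.toReal h4
    rw [Real.Angle.toReal_coe_eq_self_iff.2 h5, Complex.arg_coe_angle_toReal_eq_arg] at h6
    exact h6
  have hlog : Complex.log (g * z) = Complex.log g + Complex.log z - 2 * Real.pi * Complex.I := by
    unfold Complex.log
    rw [norm_mul, Real.log_mul (norm_ne_zero_iff.2 hg) (norm_ne_zero_iff.2 hz), harg]
    push_cast
    ring
  rw [cb_eq_exp hg, cb_eq_exp hz, cb_eq_exp hgz, hlog]
  unfold om
  rw [← Complex.exp_add, ← Complex.exp_add]
  congr 1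
  ring

/-- `cb` near `1` -/
theorem cb_inv {z : ℂ} (hz : ‖z - 1‖ ≤ 1 / 2) : cb z * cb z⁻¹ = 1 := by
  have hre : 0 < z.re := by
    have h1 := Complex.abs_re_le_norm (z - 1)
    rw [Complex.sub_re, Complex.one_re] at h1
    have h2 := h1.trans hz
    rw [abs_le] at h2
    linarith [h2.1]
  have hz0 : z ≠ 0 := by
    rintro rfl
    simp at hre
  have harg : Complex.arg z ≠ Real.pi := by
    intro h
    rw [Complex.arg_eq_pi_iff] at h
    linarith [h.1]
  have h1 : Complex.arg z + Complex.arg z⁻¹ = 0 := by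
    rw [Complex.arg_inv, if_neg harg]
    ring
  rw [← cb_mul_of_abs_arg hz0 (inv_ne_zero hz0) (by rw [h1]; exact ⟨by linarith [Real.pi_pos],
    Real.pi_pos.le⟩), mul_inv_cancel₀ hz0, cb_one]

theorem cb_re_nonneg {z : ℂ} (hz : 0 ≤ z.re) : 0 ≤ (cb z).re := by
  by_cases h0 : z = 0
  · rw [h0, cb_zero]
    simp
  · rw [cb_eq_exp h0, Complex.exp_re]
    refine mul_nonneg (Real.exp_pos _).le (Real.cos_nonneg_of_mem_Icc ?_)
    have h1 : (Complex.log z * (1 / 3)).im = Complex.arg z / 3 := by
      have : (Complex.log z * (1 / 3)) = Complex.log z / 3 := by ring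
      rw [this]
      have h3 : (3 : ℂ) = ((3 : ℝ) : ℂ) := by norm_num
      rw [h3, Complex.div_ofReal_im, Complex.log_im]
    rw [h1]
    have h2 : |Complex.arg z| ≤ Real.pi / 2 := Complex.abs_arg_le_pi_div_two_iff.2 hz
    rw [abs_le] at h2
    have := Real.pi_pos
    constructor <;> linarith [h2.1, h2.2]

theorem cb_sq_re_nonneg {z : ℂ} (hz : 0 ≤ z.re) : 0 ≤ (cb z ^ 2).re := by
  by_cases h0 : z = 0
  · rw [h0, cb_zero]
    simp
  · rw [cb_eq_exp h0, ← Complex.exp_nat_mul, Complex.exp_re]
    refine mul_nonneg (Real.exp_pos _).le (Real.cos_nonneg_of_mem_Icc ?_)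
    have h1 : (((2 : ℕ) : ℂ) * (Complex.log z * (1 / 3))).im = 2 * Complex.arg z / 3 := by
      have : (((2 : ℕ) : ℂ) * (Complex.log z * (1 / 3))) = ((2 / 3 : ℝ) : ℂ) * Complex.log z := by
        push_cast
        ring
      rw [this, Complex.im_ofReal_mul, Complex.log_im]
      ring
    rw [h1]
    have h2 : |Complex.arg z| ≤ Real.pi / 2 := Complex.abs_arg_le_pi_div_two_iff.2 hz
    rw [abs_le] at h2
    have := Real.pi_pos
    constructor <;> linarith [h2.1, h2.2]

theorem norm_cb_sub_one_le {z : ℂ} (hz : ‖z - 1‖ ≤ 1 / 2) : ‖cb z - 1‖ ≤ ‖z - 1‖ := by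
  have hre : 0 ≤ z.re := by
    have h1 := Complex.abs_re_le_norm (z - 1)
    rw [Complex.sub_re, Complex.one_re] at h1
    have h2 := h1.trans hz
    rw [abs_le] at h2
    linarith [h2.1]
  have hc := cb_re_nonneg hre
  have hc2 := cb_sq_re_nonneg hre
  have h3 : z - 1 = (cb z - 1) * (cb z ^ 2 + cb z + 1) := by
    have := cb_pow z
    linear_combination -this
  have h4 : 1 ≤ ‖cb z ^ 2 + cb z + 1‖ := by
    refine le_trans ?_ (Complex.re_le_norm _)
    rw [Complex.add_re, Complex.add_re, Complex.one_re]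
    linarith
  rw [h3, norm_mul]
  exact le_mul_of_one_le_right (norm_nonneg _) h4

end Pool.Agent.helper31.Rot
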