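import Mathlib
import Pool.Agent.helper18.Rot.Defs

/-!
# Elementary facts about the functions `G_i` (mod:G)
-/

open Topology Filter Set
open scoped unitInterval

namespace Pool.Agent.helper31.Rot

open Pool.Agent.helper18.Rot Par

/-! ### the norm on the circle -/

theorem nrm_eq {t : ℝ} (h : |t| ≤ 1 / 2) : ‖(t : UnitAddCircle)‖ = |t| := by
  refine (AddCircle.norm_coe_eq_abs_iff (p := (1 : ℝ)) one_ne_zero).2 ?_
  simpa using h

theorem nrm_le (t : ℝ) : ‖(t : UnitAddCircle)‖ ≤ |t| := by
  rw [UnitAddCircle.norm_eq]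
  have := round_le t 0
  simpa using this

theorem nrm_le_half (x : UnitAddCircle) : ‖x‖ ≤ 1 / 2 := by
  have := AddCircle.norm_le_half_period (p := (1 : ℝ)) (x := x) one_ne_zero
  simpa using this

theorem coe_sub_one (t : ℝ) : ((t - 1 : ℝ) : UnitAddCircle) = (t : UnitAddCircle) := by
  have h : ((1 : ℝ) : UnitAddCircle) = 0 := AddCircle.coe_period 1
  rw [AddCircle.coe_sub, h, sub_zero]

theorem nrm_eq' {t : ℝ} (h0 : 1 / 2 ≤ t) (h1 : t ≤ 3 / 2) : ‖(t : UnitAddCircle)‖ = |t - 1| := by
  rw [← coe_sub_one t]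
  refine nrm_eq ?_
  rw [abs_le]
  constructor <;> linarith

/-- A real representative of small absolute value. -/
theorem exists_rep (x : UnitAddCircle) : ∃ t : ℝ, (t : UnitAddCircle) = x ∧ |t| ≤ 1 / 2 := by
  obtain ⟨s, rfl⟩ := QuotientAddGroup.mk_surjective x
  refine ⟨s - round s, ?_, abs_sub_round s⟩
  rw [AddCircle.coe_sub]
  have : ((round s : ℝ) : UnitAddCircle) = 0 := by
    have h := AddCircle.coe_eq_zero_iff (1 : ℝ) (x := (round s : ℝ))
    rw [h]
    exact ⟨round s, by simp⟩
  rw [this, sub_zero]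

/-! ### bounds for the slits -/

variable (P : Par)

theorem lo_nonneg' (i : Fin 2) : 0 ≤ P.lo i := by
  fin_cases i
  · exact P.lo_nonneg
  · have h0 := P.lo_nonneg
    have h1 := P.lo_hi 0
    have h2 := P.hi_lo
    show 0 ≤ P.lo 1
    linarith

theorem hi_lt' (i : Fin 2) : P.hi i < 1 / 8 := by
  fin_cases i
  · have h1 := P.lo_hi 1
    have h2 := P.hi_lo
    have h3 := P.hi_lt
    show P.hi 0 < 1 / 8
    linarith
  · exact P.hi_lt

theorem c_eq (i : Fin 2) : P.c i = (P.lo i + P.hi i) / 2 := rfl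
theorem r_eq (i : Fin 2) : P.r i = (P.hi i - P.lo i) / 2 := rfl

theorem r_pos (i : Fin 2) : 0 < P.r i := by
  have := P.lo_hi i
  rw [r_eq]
  linarith

theorem r_lt (i : Fin 2) : P.r i < 1 / 16 := by
  have h1 := lo_nonneg' P i
  have h2 := hi_lt' P i
  rw [r_eq]
  linarith

theorem dl_le (i : Fin 2) (x : UnitAddCircle) : P.dl i x ≤ 1 / 2 := by
  have h1 := nrm_le_half (x - (P.c i : UnitAddCircle))
  have h2 := r_pos P i
  unfold dl
  linarith

theorem neg_r_le_dl (i : Fin 2) (x : UnitAddCircle) : - P.r i ≤ P.dl i x := by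
  have h1 := norm_nonneg (x - (P.c i : UnitAddCircle))
  unfold dl
  linarith

theorem abs_dl_le (i : Fin 2) (x : UnitAddCircle) : |P.dl i x| ≤ 1 / 2 := by
  have h1 := dl_le P i x
  have h2 := neg_r_le_dl P i x
  have h3 := r_lt P i
  rw [abs_le]
  constructor <;> linarith

/-! ### the tent function -/

theorem tent_of_le {y : ℝ} (h0 : -(1 / 4) ≤ y) (h1 : y ≤ 1 / 4) : tent (y : UnitAddCircle) = y := by
  unfold tent
  rw [← AddCircle.coe_sub, nrm_eq (by rw [abs_le]; constructor <;> linarith), abs_of_nonpos (by linarith)]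
  ring

theorem tent_of_mid {y : ℝ} (h0 : 1 / 4 ≤ y) (h1 : y ≤ 3 / 4) :
    tent (y : UnitAddCircle) = 1 / 2 - y := by
  unfold tent
  rw [← AddCircle.coe_sub, nrm_eq (by rw [abs_le]; constructor <;> linarith), abs_of_nonneg (by linarith)]
  ring

theorem tent_of_ge {y : ℝ} (h0 : 3 / 4 ≤ y) (h1 : y ≤ 1) :
    tent (y : UnitAddCircle) = y - 1 := by
  rw [← coe_sub_one y]
  exact tent_of_le (by linarith) (by linarith)

theorem abs_tent {y : ℝ} (h : |y| ≤ 1 / 2) :
    |tent (y : UnitAddCircle)| = min |y| (1 / 2 - |y|) := by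
  rw [abs_le] at h
  rcases le_total 0 y with h0 | h0
  · rw [abs_of_nonneg h0]
    rcases le_total y (1 / 4) with h1 | h1
    · rw [tent_of_le (by linarith) h1, abs_of_nonneg h0, min_eq_left (by linarith)]
    · rw [tent_of_mid h1 (by linarith), abs_of_nonneg (by linarith), min_eq_right (by linarith)]
  · rw [abs_of_nonpos h0]
    rcases le_total (-y) (1 / 4) with h1 | h1
    · rw [tent_of_le (by linarith) (by linarith), abs_of_nonpos h0, min_eq_left (by linarith)]
    · have e : tent (y : UnitAddCircle) = - (1 / 2 + y) := by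
        have h2 : ((y + 1 - 1 : ℝ) : UnitAddCircle) = ((y + 1 : ℝ) : UnitAddCircle) :=
          coe_sub_one (y + 1)
        have h3 : (y + 1 - 1 : ℝ) = y := by ring
        rw [h3] at h2
        rw [h2, tent_of_mid (by linarith) (by linarith)]
        ring
      rw [e, abs_neg, abs_of_nonneg (by linarith), min_eq_right (by linarith)]
      ring

theorem abs_tent_le (y : UnitAddCircle) : |tent y| ≤ 1 / 4 := by
  obtain ⟨t, rfl, ht⟩ := exists_rep y
  rw [abs_tent ht]
  rcases le_total |t| (1 / 4) with h | h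
  · exact (min_le_left _ _).trans h
  · exact (min_le_right _ _).trans (by linarith)

theorem abs_tent' (y : UnitAddCircle) : |tent y| = min ‖y‖ (1 / 2 - ‖y‖) := by
  obtain ⟨t, rfl, ht⟩ := exists_rep y
  rw [abs_tent ht, nrm_eq ht]

theorem tent_lip (y : UnitAddCircle) (v : ℝ) :
    |tent (y + (v : UnitAddCircle)) - tent y| ≤ |v| := by
  unfold tent
  have h1 := abs_norm_sub_norm_le (y + (v : UnitAddCircle) - ((1 / 4 : ℝ) : UnitAddCircle))
    (y - ((1 / 4 : ℝ) : UnitAddCircle))
  have e : y + (v : UnitAddCircle) - ((1 / 4 : ℝ) : UnitAddCircle) -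
      (y - ((1 / 4 : ℝ) : UnitAddCircle)) = (v : UnitAddCircle) := by abel
  rw [e] at h1
  have h2 := h1.trans (nrm_le v)
  rw [abs_le] at h2 ⊢
  constructor <;> linarith [h2.1, h2.2]

/-! ### the real part -/

theorem G_re (i : Fin 2) (q : UnitAddCircle × UnitAddCircle) :
    (P.G i q).re = P.dl i q.1 + max 0 (‖q.2‖ - 1 / 8) := rfl

theorem G_im' (i : Fin 2) (q : UnitAddCircle × UnitAddCircle) :
    (P.G i q).im = - tent q.2 := rfl

theorem dl_lip (i : Fin 2) (x : UnitAddCircle) (u : ℝ) :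
    |P.dl i (x + (u : UnitAddCircle)) - P.dl i x| ≤ |u| := by
  unfold dl
  have h1 := abs_norm_sub_norm_le (x + (u : UnitAddCircle) - (P.c i : UnitAddCircle))
    (x - (P.c i : UnitAddCircle))
  have e : x + (u : UnitAddCircle) - (P.c i : UnitAddCircle) - (x - (P.c i : UnitAddCircle)) =
      (u : UnitAddCircle) := by abel
  rw [e] at h1
  have h2 := h1.trans (nrm_le u)
  rw [abs_le] at h2 ⊢
  constructor <;> linarith [h2.1, h2.2]

theorem max_lip (y : UnitAddCircle) (v : ℝ) :
    |max 0 (‖y + (v : UnitAddCircle)‖ - 1 / 8) - max 0 (‖y‖ - 1 / 8)| ≤ |v| := by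
  have h1 := abs_norm_sub_norm_le (y + (v : UnitAddCircle)) y
  have e : y + (v : UnitAddCircle) - y = (v : UnitAddCircle) := by abel
  rw [e] at h1
  have h2 := h1.trans (nrm_le v)
  have h3 := abs_max_sub_max_le_abs (‖y + (v : UnitAddCircle)‖ - 1 / 8) (‖y‖ - 1 / 8) 0
  rw [max_comm 0, max_comm 0]
  refine h3.trans (le_trans (le_of_eq ?_) h2)
  congr 1
  ring

/-! ### the statements of the specification -/

theorem norm_G_sub_le (i : Fin 2) (q : UnitAddCircle × UnitAddCircle) (u v : ℝ) :
    ‖P.G i (q.1 + (u : UnitAddCircle), q.2 + (v : UnitAddCircle)) - P.G i q‖ ≤ |u| + 2 * |v| := by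
  refine (Complex.norm_le_abs_re_add_abs_im _).trans ?_
  have h1 : |(P.G i (q.1 + (u : UnitAddCircle), q.2 + (v : UnitAddCircle)) - P.G i q).re| ≤
      |u| + |v| := by
    rw [Complex.sub_re, G_re, G_re]
    have h2 := dl_lip P i q.1 u
    have h3 := max_lip q.2 v
    rw [abs_le] at h2 h3 ⊢
    constructor <;> linarith [h2.1, h2.2, h3.1, h3.2]
  have h4 : |(P.G i (q.1 + (u : UnitAddCircle), q.2 + (v : UnitAddCircle)) - P.G i q).im| ≤
      |v| := by
    rw [Complex.sub_im, G_im', G_im']
    have h5 := tent_lip q.2 v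
    rw [abs_le] at h5 ⊢
    constructor <;> linarith [h5.1, h5.2]
  linarith

theorem continuous_dl (i : Fin 2) : Continuous (P.dl i) := by
  unfold dl
  fun_prop

theorem continuous_tent : Continuous tent := by
  unfold tent
  fun_prop

theorem continuous_G (i : Fin 2) : Continuous (P.G i) := by
  have h1 : Continuous fun q : UnitAddCircle × UnitAddCircle =>
      P.dl i q.1 + max 0 (‖q.2‖ - 1 / 8) :=
    ((continuous_dl P i).comp continuous_fst).add
      (continuous_const.max ((continuous_norm.comp continuous_snd).sub continuous_const))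
  have h2 : Continuous fun q : UnitAddCircle × UnitAddCircle => - tent q.2 :=
    (continuous_tent.comp continuous_snd).neg
  exact Complex.equivRealProdCLM.symm.continuous.comp (h1.prodMk h2)

theorem norm_G_le (i : Fin 2) (q : UnitAddCircle × UnitAddCircle) : ‖P.G i q‖ ≤ 1 := by
  have h1 : |(P.G i q).re| ≤ 7 / 8 := by
    rw [G_re]
    have h2 := dl_le P i q.1
    have h3 := neg_r_le_dl P i q.1
    have h4 := r_lt P i
    have h5 := nrm_le_half q.2
    have h6 : max 0 (‖q.2‖ - 1 / 8) ≤ 3 / 8 := max_le (by norm_num) (by linarith)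
    have h7 : 0 ≤ max 0 (‖q.2‖ - 1 / 8) := le_max_left _ _
    rw [abs_le]
    constructor <;> linarith
  have h2 : |(P.G i q).im| ≤ 1 / 4 := by
    rw [G_im', abs_neg]
    exact abs_tent_le _
  have h3 : ‖P.G i q‖ ^ 2 ≤ 1 := by
    rw [← Complex.normSq_eq_norm_sq, Complex.normSq_apply]
    have h4 : (P.G i q).re * (P.G i q).re ≤ (7 / 8) * (7 / 8) := by
      rw [← abs_mul_abs_self]
      exact mul_self_le_mul_self (abs_nonneg _) h1
    have h5 : (P.G i q).im * (P.G i q).im ≤ (1 / 4) * (1 / 4) := by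
      rw [← abs_mul_abs_self (P.G i q).im]
      exact mul_self_le_mul_self (abs_nonneg _) h2
    linarith
  nlinarith [norm_nonneg (P.G i q)]

theorem le_norm_G (i : Fin 2) (q : UnitAddCircle × UnitAddCircle) :
    (|P.dl i q.1| + ‖q.2‖) / 8 ≤ ‖P.G i q‖ := by
  have hre := Complex.abs_re_le_norm (P.G i q)
  have him := Complex.abs_im_le_norm (P.G i q)
  rw [G_re] at hre
  rw [G_im', abs_neg, abs_tent'] at him
  have h0 := norm_nonneg q.2
  have h1 := nrm_le_half q.2
  have h2 := abs_dl_le P i q.1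
  have h3 := abs_nonneg (P.dl i q.1)
  rcases le_total ‖q.2‖ (1 / 8) with h | h
  · rw [max_eq_left (by linarith), add_zero] at hre
    rw [min_eq_left (by linarith)] at him
    linarith
  · rcases le_total ‖q.2‖ (3 / 8) with h' | h'
    · have h4 : 1 / 8 ≤ min ‖q.2‖ (1 / 2 - ‖q.2‖) := le_min h (by linarith)
      linarith
    · rw [max_eq_right (by linarith)] at hre
      have h5 := neg_r_le_dl P i q.1
      have h6 := r_lt P i
      have h7 := le_abs_self (P.dl i q.1 + (‖q.2‖ - 1 / 8))
      linarith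

theorem dl_of_le (i : Fin 2) {x : ℝ} (h0 : P.c i - 1 / 2 ≤ x) (h1 : x ≤ P.c i + 1 / 2) :
    P.dl i (x : UnitAddCircle) = |x - P.c i| - P.r i := by
  unfold dl
  rw [← AddCircle.coe_sub, nrm_eq (by rw [abs_le]; constructor <;> linarith)]

theorem dl_of_gt (i : Fin 2) {x : ℝ} (h0 : P.c i + 1 / 2 ≤ x) (h1 : x ≤ P.c i + 3 / 2) :
    P.dl i (x : UnitAddCircle) = |x - P.c i - 1| - P.r i := by
  unfold dl
  rw [← AddCircle.coe_sub, nrm_eq' (by linarith) (by linarith)]

theorem dl_neg_iff (i : Fin 2) {x : ℝ} (h0 : 0 ≤ x) (h1 : x < 1) :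
    P.dl i (x : UnitAddCircle) < 0 ↔ P.lo i < x ∧ x < P.hi i := by
  have hl := lo_nonneg' P i
  have hh := hi_lt' P i
  have hlh := P.lo_hi i
  have hc := c_eq P i
  have hr := r_eq P i
  rcases le_total x (P.c i + 1 / 2) with h | h
  · rw [dl_of_le P i (by linarith) h, sub_neg, abs_lt]
    constructor
    · rintro ⟨h2, h3⟩
      constructor <;> linarith
    · rintro ⟨h2, h3⟩
      constructor <;> linarith
  · rw [dl_of_gt P i h (by linarith), abs_of_nonpos (by linarith)]
    constructor
    · intro h2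
      exfalso
      linarith
    · rintro ⟨h2, h3⟩
      exfalso
      linarith

theorem dl_eq_zero_iff (i : Fin 2) {x : ℝ} (h0 : 0 ≤ x) (h1 : x < 1) :
    P.dl i (x : UnitAddCircle) = 0 ↔ x = P.lo i ∨ x = P.hi i := by
  have hl := lo_nonneg' P i
  have hh := hi_lt' P i
  have hlh := P.lo_hi i
  have hc := c_eq P i
  have hr := r_eq P i
  rcases le_total x (P.c i + 1 / 2) with h | h
  · rw [dl_of_le P i (by linarith) h, sub_eq_zero, abs_eq (by linarith)]
    constructor
    · rintro (h2 | h2)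
      · right; linarith
      · left; linarith
    · rintro (h2 | h2)
      · right; linarith
      · left; linarith
  · rw [dl_of_gt P i h (by linarith), abs_of_nonpos (by linarith)]
    constructor
    · intro h2
      exfalso
      linarith
    · rintro (h2 | h2)
      · exfalso; linarith
      · exfalso; linarith

/-- lower bound of `|dl|` by the distance to the end points -/
theorem le_abs_dl' (i : Fin 2) (q : UnitAddCircle) :
    min ‖q - (P.lo i : UnitAddCircle)‖ ‖q - (P.hi i : UnitAddCircle)‖ ≤ |P.dl i q| := by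
  obtain ⟨y, hy, hy2⟩ := exists_rep (q - (P.c i : UnitAddCircle))
  have hq : q = ((y + P.c i : ℝ) : UnitAddCircle) := by
    rw [AddCircle.coe_add, hy]
    abel
  have hlh := P.lo_hi i
  have hc := c_eq P i
  have hr := r_eq P i
  have hlo : q - (P.lo i : UnitAddCircle) = ((y + P.r i : ℝ) : UnitAddCircle) := by
    rw [hq, ← AddCircle.coe_sub]
    congr 1
    rw [hc, hr]
    ring
  have hhi : q - (P.hi i : UnitAddCircle) = ((y - P.r i : ℝ) : UnitAddCircle) := by
    rw [hq, ← AddCircle.coe_sub]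
    congr 1
    rw [hc, hr]
    ring
  rw [hlo, hhi]
  unfold dl
  rw [← hy, nrm_eq hy2]
  rcases le_total 0 y with h | h
  · rw [abs_of_nonneg h]
    exact (min_le_right _ _).trans (nrm_le _)
  · rw [abs_of_nonpos h]
    refine (min_le_left _ _).trans ((nrm_le _).trans (le_of_eq ?_))
    rw [← abs_neg]
    congr 1
    ring

/-- lower bound of `|dl|` by the distance to the end points -/
theorem le_abs_dl (i : Fin 2) (x : ℝ) :
    min ‖((x - P.lo i : ℝ) : UnitAddCircle)‖ ‖((x - P.hi i : ℝ) : UnitAddCircle)‖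
      ≤ |P.dl i (x : UnitAddCircle)| := by
  have := le_abs_dl' P i (x : UnitAddCircle)
  rwa [← AddCircle.coe_sub, ← AddCircle.coe_sub] at this

theorem G_eq_zero_iff (i : Fin 2) (q : UnitAddCircle × UnitAddCircle) :
    P.G i q = 0 ↔ q.2 = 0 ∧ (q.1 = (P.lo i : UnitAddCircle) ∨ q.1 = (P.hi i : UnitAddCircle)) := by
  constructor
  · intro h
    have h1 := le_norm_G P i q
    rw [h, norm_zero] at h1
    have h2 := norm_nonneg q.2
    have h3 := abs_nonneg (P.dl i q.1)
    have h4 : ‖q.2‖ = 0 := by linarith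
    have h5 : |P.dl i q.1| = 0 := by linarith
    refine ⟨norm_eq_zero.1 h4, ?_⟩
    have h6 := le_abs_dl' P i q.1
    rw [h5] at h6
    rcases min_le_iff.1 h6 with h7 | h7
    · left
      exact sub_eq_zero.1 (norm_eq_zero.1 (le_antisymm h7 (norm_nonneg _)))
    · right
      exact sub_eq_zero.1 (norm_eq_zero.1 (le_antisymm h7 (norm_nonneg _)))
  · rintro ⟨h1, h2⟩
    have hlh := P.lo_hi i
    have hl := lo_nonneg' P i
    have hh := hi_lt' P i
    have hc := c_eq P i
    have hr := r_eq P i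
    have h3 : P.dl i q.1 = 0 := by
      rcases h2 with h2 | h2
      · rw [h2]
        exact (dl_eq_zero_iff P i hl (by linarith)).2 (Or.inl rfl)
      · rw [h2]
        exact (dl_eq_zero_iff P i (by linarith) (by linarith)).2 (Or.inr rfl)
    have h4 : tent (0 : UnitAddCircle) = 0 := by
      have := tent_of_le (y := 0) (by norm_num) (by norm_num)
      simpa using this
    apply Complex.ext
    · rw [G_re, h3, h1]
      simp
    · rw [G_im', h1, h4]
      simp

theorem G_notMem_slitPlane_iff (i : Fin 2) (q : UnitAddCircle × UnitAddCircle) :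
    P.G i q ∉ Complex.slitPlane ↔ q.2 = 0 ∧ P.dl i q.1 ≤ 0 := by
  rw [Complex.mem_slitPlane_iff, not_or, not_lt, not_not, G_re, G_im']
  constructor
  · rintro ⟨h1, h2⟩
    have h3 : |tent q.2| = 0 := by
      rw [← abs_neg, h2, abs_zero]
    rw [abs_tent'] at h3
    have h4 : ‖q.2‖ = 0 := by
      rcases le_total ‖q.2‖ (1 / 2 - ‖q.2‖) with h | h
      · rwa [min_eq_left h] at h3
      · rw [min_eq_right h] at h3
        exfalso
        rw [max_eq_right (by linarith)] at h1
        have h5 := neg_r_le_dl P i q.1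
        have h6 := r_lt P i
        linarith
    refine ⟨norm_eq_zero.1 h4, ?_⟩
    have h5 : 0 ≤ max 0 (‖q.2‖ - 1 / 8) := le_max_left _ _
    linarith
  · rintro ⟨h1, h2⟩
    have h4 : tent (0 : UnitAddCircle) = 0 := by
      have := tent_of_le (y := 0) (by norm_num) (by norm_num)
      simpa using this
    rw [h1, h4, norm_zero, max_eq_left (by norm_num)]
    exact ⟨by linarith, by simp⟩

/-- form of `G` near height `0` -/
theorem G_near (i : Fin 2) (x : UnitAddCircle) {v : ℝ} (hv : |v| ≤ 1 / 8) :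
    P.G i (x, (v : UnitAddCircle)) = ⟨P.dl i x, -v⟩ := by
  apply Complex.ext
  · rw [G_re]
    show P.dl i x + max 0 (‖(v : UnitAddCircle)‖ - 1 / 8) = P.dl i x
    rw [nrm_eq (by linarith), max_eq_left (by linarith), add_zero]
  · rw [G_im']
    show - tent (v : UnitAddCircle) = -v
    rw [abs_le] at hv
    rw [tent_of_le (by linarith) (by linarith)]

/-- sign of the imaginary part -/
theorem G_im (i : Fin 2) (x : UnitAddCircle) {y : ℝ} (h0 : 0 ≤ y) (h1 : y ≤ 1) :
    (P.G i (x, (y : UnitAddCircle))).im =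
      - (if y ≤ 1 / 4 then y else if y ≤ 3 / 4 then 1 / 2 - y else y - 1) := by
  rw [G_im']
  show - tent (y : UnitAddCircle) = _
  congr 1
  split_ifs with h2 h3
  · exact tent_of_le (by linarith) h2
  · exact tent_of_mid (not_le.1 h2).le h3
  · exact tent_of_ge (not_le.1 h3).le h1

/-- the real part is positive in the middle -/
theorem G_re_pos (i : Fin 2) (x : UnitAddCircle) {y : ℝ} (h0 : 1 / 4 ≤ y) (h1 : y ≤ 3 / 4) :
    0 < (P.G i (x, (y : UnitAddCircle))).re := by
  rw [G_re]
  show 0 < P.dl i x + max 0 (‖(y : UnitAddCircle)‖ - 1 / 8)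
  have h2 : 1 / 4 ≤ ‖(y : UnitAddCircle)‖ := by
    rcases le_total y (1 / 2) with h | h
    · rw [nrm_eq (by rw [abs_le]; constructor <;> linarith), abs_of_nonneg (by linarith)]
      exact h0
    · rw [nrm_eq' h (by linarith), abs_of_nonpos (by linarith)]
      linarith
  have h3 := neg_r_le_dl P i x
  have h4 := r_lt P i
  have h5 := le_max_right (0 : ℝ) (‖(y : UnitAddCircle)‖ - 1 / 8)
  linarith

/-- `G_i = -ζ` near the left end point -/
theorem G_lo (i : Fin 2) {u v : ℝ} (hu : |u| ≤ P.r i) (hv : |v| ≤ 1 / 8) :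
    P.G i (((P.lo i + u : ℝ) : UnitAddCircle), (v : UnitAddCircle)) = -⟨u, v⟩ := by
  rw [G_near P i _ hv]
  have hc := c_eq P i
  have hr := r_eq P i
  have h1 := r_lt P i
  rw [abs_le] at hu
  apply Complex.ext
  · show P.dl i ((P.lo i + u : ℝ) : UnitAddCircle) = (-(⟨u, v⟩ : ℂ)).re
    rw [dl_of_le P i (by linarith) (by linarith), abs_of_nonpos (by linarith), Complex.neg_re]
    show - (P.lo i + u - P.c i) - P.r i = - u
    rw [hc, hr]
    ring
  · simp

/-- `G_i = conj ζ` near the right end point -/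
theorem G_hi (i : Fin 2) {u v : ℝ} (hu : |u| ≤ P.r i) (hv : |v| ≤ 1 / 8) :
    P.G i (((P.hi i + u : ℝ) : UnitAddCircle), (v : UnitAddCircle)) = ⟨u, -v⟩ := by
  rw [G_near P i _ hv]
  have hc := c_eq P i
  have hr := r_eq P i
  have h1 := r_lt P i
  rw [abs_le] at hu
  apply Complex.ext
  · show P.dl i ((P.hi i + u : ℝ) : UnitAddCircle) = u
    rw [dl_of_le P i (by linarith) (by linarith), abs_of_nonneg (by linarith)]
    rw [hc, hr]
    ring
  · rfl

end Pool.Agent.helper31.Rot
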