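import Mathlib
import Pool.Agent.helper18.Rot.Defs
import Pool.Agent.helper31.Rot.G
import Pool.Agent.helper31.Rot.Cb

/-!
# Topology of the surface (mod:top)
-/

open Topology Filter Set
open scoped unitInterval

namespace Pool.Agent.helper31.Rot

open Pool.Agent.helper18.Rot Par

variable (P : Par)

/-- The set of points of the surface. -/
def surfSet : Set ((UnitAddCircle × UnitAddCircle) × (Fin 2 → ℂ)) :=
  {p | ∀ i, p.2 i ^ 3 = P.G i p.1}

theorem isClosed_surfSet : IsClosed (surfSet P) := by
  have h : surfSet P = ⋂ i, {p | p.2 i ^ 3 = P.G i p.1} := by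
    ext p
    simp [surfSet]
  rw [h]
  refine isClosed_iInter fun i => isClosed_eq ?_ ?_
  · exact ((continuous_apply i).comp continuous_snd).pow 3
  · exact (continuous_G P i).comp continuous_fst

theorem norm_coord_le {p : (UnitAddCircle × UnitAddCircle) × (Fin 2 → ℂ)} (hp : p ∈ surfSet P)
    (i : Fin 2) : ‖p.2 i‖ ≤ 1 := by
  have h1 : ‖p.2 i‖ ^ 3 ≤ 1 := by
    rw [← norm_pow, hp i]
    exact norm_G_le P i _
  by_contra h
  exact absurd h1 (not_le.2 (one_lt_pow₀ (not_le.1 h) (by norm_num)))

theorem isCompact_surfSet : IsCompact (surfSet P) := by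
  have h1 : IsCompact ((univ : Set (UnitAddCircle × UnitAddCircle)) ×ˢ
      Metric.closedBall (0 : Fin 2 → ℂ) 1) :=
    isCompact_univ.prod (isCompact_closedBall _ _)
  refine h1.of_isClosed_subset (isClosed_surfSet P) fun p hp => ⟨mem_univ _, ?_⟩
  rw [mem_closedBall_zero_iff]
  exact (pi_norm_le_iff_of_nonneg zero_le_one).2 fun i => norm_coord_le P hp i

theorem surf_compact : CompactSpace P.Surf :=
  isCompact_iff_compactSpace.1 (isCompact_surfSet P)

theorem surf_t2 : T2Space P.Surf :=
  inferInstanceAs (T2Space {p : (UnitAddCircle × UnitAddCircle) × (Fin 2 → ℂ) //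
    ∀ i, p.2 i ^ 3 = P.G i p.1})

theorem surf_secondCountable : SecondCountableTopology P.Surf :=
  inferInstanceAs (SecondCountableTopology {p : (UnitAddCircle × UnitAddCircle) × (Fin 2 → ℂ) //
    ∀ i, p.2 i ^ 3 = P.G i p.1})

end Pool.Agent.helper31.Rot
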